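import Pool.Agent.Helper12.VW.Defs

/-!
Primitive number field whose discriminant is exactly divisible by a prime: the Galois group is
the full symmetric group (inertia gives a transposition, then Jordan).
-/

open Polynomial NumberField

namespace Pool.Agent.Helper12.VW

namespace A5

/-- If after removing any row there are still two equal rows, then the adjugate vanishes. -/
lemma adj_eq_zero {R ι : Type*} [CommRing R] [Fintype ι] [DecidableEq ι] (A : Matrix ι ι R)
    (h : ∀ r, ∃ a b, a ≠ b ∧ a ≠ r ∧ b ≠ r ∧ A a = A b) : A.adjugate = 0 := by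
  ext i j
  rw [Matrix.adjugate_apply]
  obtain ⟨a, b, hab, ha, hb, e⟩ := h j
  exact Matrix.det_zero_of_row_eq hab (by rw [Matrix.updateRow_ne ha, Matrix.updateRow_ne hb, e])

/-- If the adjugate of an integer matrix is divisible by `p`, then the determinant is divisible
by the square of `p`. -/
lemma two_le {ι : Type*} [Fintype ι] [DecidableEq ι] (hn : 2 ≤ Fintype.card ι)
    (T : Matrix ι ι ℤ) (hT : T.det ≠ 0) (p : ℕ) (hp : p.Prime)
    (h : ∀ i j, (p : ℤ) ∣ T.adjugate i j) : 2 ≤ T.det.natAbs.factorization p := by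
  choose B hB using h
  have h1 : T.adjugate = (p : ℤ) • (Matrix.of B) := by
    ext i j
    simp [hB i j]
  have h2 := Matrix.det_adjugate T
  rw [h1, Matrix.det_smul] at h2
  have h3 : p ^ Fintype.card ι * (Matrix.of B).det.natAbs = T.det.natAbs ^ (Fintype.card ι - 1) := by
    have := congrArg Int.natAbs h2
    simpa [Int.natAbs_mul, Int.natAbs_pow] using this
  have h4 : T.det.natAbs ≠ 0 := Int.natAbs_ne_zero.mpr hT
  have h5 : p ^ Fintype.card ι ∣ T.det.natAbs ^ (Fintype.card ι - 1) := ⟨_, h3.symm⟩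
  have h6 : Fintype.card ι ≤ (T.det.natAbs ^ (Fintype.card ι - 1)).factorization p :=
    (hp.pow_dvd_iff_le_factorization (pow_ne_zero _ h4)).mp h5
  rw [Nat.factorization_pow] at h6
  simp only [Finsupp.smul_apply, smul_eq_mul] at h6
  by_contra hcon
  push Not at hcon
  have h7 : T.det.natAbs.factorization p ≤ 1 := by omega
  have h8 : (Fintype.card ι - 1) * T.det.natAbs.factorization p ≤ (Fintype.card ι - 1) * 1 :=
    Nat.mul_le_mul_left _ h7
  omega

section trace

variable {K M : Type*} [Field K] [NumberField K] [Field M] [NumberField M]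

lemma trace_eq_sum (hcard : Fintype.card (K →ₐ[ℚ] M) = Module.finrank ℚ K) (x : K) :
    algebraMap ℚ M (Algebra.trace ℚ K x) = ∑ σ : K →ₐ[ℚ] M, σ x := by
  classical
  let Ω := AlgebraicClosure M
  let j : M →ₐ[ℚ] Ω := IsScalarTower.toAlgHom ℚ M Ω
  let F : (K →ₐ[ℚ] M) → (K →ₐ[ℚ] Ω) := fun σ => j.comp σ
  have hj : Function.Injective j := (j : M →+* Ω).injective
  have hF : Function.Injective F := by
    intro σ τ h
    ext y
    exact hj (DFunLike.congr_fun h y)
  have hb : Function.Bijective F := by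
    rw [Fintype.bijective_iff_injective_and_card]
    exact ⟨hF, by rw [hcard, AlgHom.card]⟩
  apply hj
  rw [map_sum]
  have h1 := trace_eq_sum_embeddings (K := ℚ) (L := K) Ω (x := x)
  have h2 : j (algebraMap ℚ M (Algebra.trace ℚ K x)) =
      algebraMap ℚ Ω (Algebra.trace ℚ K x) := j.commutes _
  rw [h2, h1]
  symm
  exact Fintype.sum_bijective F hb _ _ (fun σ => rfl)

/-- The induced map on the rings of integers. -/
noncomputable def red (σ : K →ₐ[ℚ] M) : 𝓞 K →+* 𝓞 M :=
  RingOfIntegers.mapRingHom (σ : K →+* M)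

lemma coe_red (σ : K →ₐ[ℚ] M) (x : 𝓞 K) : ((red σ x : 𝓞 M) : M) = σ (x : K) := rfl

lemma trace_int (hcard : Fintype.card (K →ₐ[ℚ] M) = Module.finrank ℚ K) (x : 𝓞 K) :
    ((Algebra.trace ℤ (𝓞 K) x : ℤ) : 𝓞 M) = ∑ σ : K →ₐ[ℚ] M, red σ x := by
  apply RingOfIntegers.coe_injective
  have h1 := trace_eq_sum hcard (x : K)
  have h2 := Algebra.coe_trace_int (K := K) x
  rw [← h2] at h1
  rw [map_sum]
  simp only [coe_red]
  rw [← h1]
  simp

end trace

lemma int_mem {M : Type*} [Field M] [NumberField M] (P : Ideal (𝓞 M)) (hP : P ≠ ⊤) (p : ℕ)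
    (hp : p.Prime) (hpP : (p : 𝓞 M) ∈ P) (m : ℤ) (hm : (m : 𝓞 M) ∈ P) : (p : ℤ) ∣ m := by
  by_contra hcon
  have hc : IsCoprime (p : ℤ) m :=
    ((Nat.prime_iff_prime_int.mp hp).irreducible.coprime_iff_not_dvd).mpr hcon
  obtain ⟨u, v, huv⟩ := hc
  apply hP
  rw [Ideal.eq_top_iff_one]
  have : (1 : 𝓞 M) = (u : 𝓞 M) * (p : 𝓞 M) + (v : 𝓞 M) * (m : 𝓞 M) := by
    have := congrArg (Int.cast : ℤ → 𝓞 M) huv
    push_cast at this
    exact this.symm
  rw [this]
  exact P.add_mem (P.mul_mem_left _ hpP) (P.mul_mem_left _ hm)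

/-- Two coincidences modulo `P` among the embeddings force the square of `p` to divide the
discriminant. -/
lemma key {K M : Type*} [Field K] [NumberField K] [Field M] [NumberField M]
    (hcard : Fintype.card (K →ₐ[ℚ] M) = Module.finrank ℚ K)
    (hn : 2 ≤ Module.finrank ℚ K) (P : Ideal (𝓞 M)) (hP : P ≠ ⊤) (p : ℕ) (hp : p.Prime)
    (hpP : (p : 𝓞 M) ∈ P)
    (h : ∀ r : K →ₐ[ℚ] M, ∃ a b : K →ₐ[ℚ] M, a ≠ b ∧ a ≠ r ∧ b ≠ r ∧
      ∀ x : 𝓞 K, red a x - red b x ∈ P) : 2 ≤ (discr K).natAbs.factorization p := by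
  classical
  let w := RingOfIntegers.basis K
  have hc : Fintype.card (Module.Free.ChooseBasisIndex ℤ (𝓞 K)) = Module.finrank ℚ K := by
    rw [← Module.finrank_eq_card_basis w, RingOfIntegers.rank]
  let e : Module.Free.ChooseBasisIndex ℤ (𝓞 K) ≃ (K →ₐ[ℚ] M) :=
    Fintype.equivOfCardEq (hc.trans hcard.symm)
  let A : Matrix (Module.Free.ChooseBasisIndex ℤ (𝓞 K)) (Module.Free.ChooseBasisIndex ℤ (𝓞 K))
    (𝓞 M ⧸ P) := Matrix.of fun i j => Ideal.Quotient.mk P (red (e i) (w j))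
  have hA : A.adjugate = 0 := by
    apply adj_eq_zero
    intro r
    obtain ⟨a, b, hab, ha, hb, hx⟩ := h (e r)
    refine ⟨e.symm a, e.symm b, fun h' => hab (e.symm.injective h'),
      fun h' => ha (by rw [← h', Equiv.apply_symm_apply]),
      fun h' => hb (by rw [← h', Equiv.apply_symm_apply]), ?_⟩
    funext j
    simp only [A, Matrix.of_apply, Equiv.apply_symm_apply]
    exact Ideal.Quotient.eq.mpr (hx _)
  have hT : (Algebra.traceMatrix ℤ w).map (Int.castRingHom (𝓞 M ⧸ P)) = A.transpose * A := by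
    ext i j
    rw [Matrix.map_apply, Matrix.mul_apply, Algebra.traceMatrix_apply, Algebra.traceForm_apply]
    have h1 := congrArg (Ideal.Quotient.mk P) (trace_int hcard (w i * w j))
    rw [map_intCast, map_sum] at h1
    rw [eq_intCast, h1]
    rw [← Equiv.sum_comp e]
    apply Finset.sum_congr rfl
    intro k _
    rw [map_mul, map_mul]
    rfl
  have hadj : (Algebra.traceMatrix ℤ w).adjugate.map (Int.castRingHom (𝓞 M ⧸ P)) = 0 := by
    have := RingHom.map_adjugate (Int.castRingHom (𝓞 M ⧸ P)) (Algebra.traceMatrix ℤ w)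
    rw [RingHom.mapMatrix_apply, RingHom.mapMatrix_apply] at this
    rw [this, hT, Matrix.adjugate_mul_distrib, hA, zero_mul]
  have hdet : (Algebra.traceMatrix ℤ w).det = discr K := rfl
  rw [← hdet]
  apply two_le _ _ _ p hp
  · intro i j
    apply int_mem P hP p hp hpP
    have := congrFun (congrFun hadj i) j
    rw [Matrix.map_apply, eq_intCast, Matrix.zero_apply] at this
    rw [← Ideal.Quotient.eq_zero_iff_mem, map_intCast]
    exact this
  · rw [hc]; exact hn
  · rw [hdet]; exact discr_ne_zero K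

/-- A prime dividing the discriminant of a Galois number field has a nontrivial inertia group. -/
lemma exists_inertia {M : Type*} [Field M] [NumberField M] [IsGalois ℚ M] (p : ℕ) (hp : p.Prime)
    (hd : (p : ℤ) ∣ discr M) :
    ∃ P : Ideal (𝓞 M), P.IsPrime ∧ (p : 𝓞 M) ∈ P ∧ ∃ g : Gal(M/ℚ), g ≠ 1 ∧
      ∀ x : 𝓞 M, ∃ y ∈ P, g (x : M) - (x : M) = (y : M) := by
  have hp' : Prime (p : ℤ) := Nat.prime_iff_prime_int.mp hp
  have h1 := (not_dvd_discr_iff_forall_mem M (𝓞 M) hp').not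
  rw [not_not] at h1
  have h2 := h1.mp hd
  push Not at h2
  obtain ⟨P, hP, hpP, hun⟩ := h2
  have := IsGaloisGroup.of_isFractionRing Gal(M/ℚ) ℤ (𝓞 M) ℚ M
  rw [← Ideal.ramificationIdx_eq_one_iff,
    ← Ideal.ramificationIdxIn_eq_ramificationIdx (P.under ℤ) _ Gal(M/ℚ),
    ← Ideal.card_inertia_eq_ramificationIdxIn (G := Gal(M/ℚ)) (P.under ℤ) P] at hun
  refine ⟨P, hP, by simpa using hpP, ?_⟩
  have h3 : (P.inertia Gal(M/ℚ)) ≠ ⊥ := by
    intro h
    apply hun
    rw [h]
    simp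
  obtain ⟨g, hg⟩ := Subgroup.ne_bot_iff_exists_ne_one.mp h3
  refine ⟨(g : Gal(M/ℚ)), fun h => hg (Subtype.ext h), fun x =>
    ⟨(g : Gal(M/ℚ)) • x - x, g.2 x, rfl⟩⟩

section action

variable (K M : Type*) [Field K] [NumberField K] [Field M] [NumberField M]

/-- Galois action on embeddings by composition. -/
@[reducible] noncomputable def act : MulAction Gal(M/ℚ) (K →ₐ[ℚ] M) where
  smul g σ := (g : M →ₐ[ℚ] M).comp σ
  one_smul σ := by ext; rfl
  mul_smul g h σ := by ext; rfl

end action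

section prim

variable {K M : Type*} [Field K] [NumberField K] [Field M] [NumberField M] [IsGalois ℚ M]

attribute [local instance] act

lemma smul_apply (g : Gal(M/ℚ)) (σ : K →ₐ[ℚ] M) (x : K) : (g • σ) x = g (σ x) := rfl

lemma ext_gen {θ : K} (hθ : IntermediateField.adjoin ℚ {θ} = ⊤) (σ τ : K →ₐ[ℚ] M)
    (h : σ θ = τ θ) : σ = τ := by
  have h1 : ∀ x : K, x ∈ IntermediateField.adjoin ℚ {θ} → σ x = τ x := by
    intro x hx
    induction hx using IntermediateField.adjoin_induction with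
    | mem y hy =>
      rw [Set.mem_singleton_iff] at hy
      rw [hy, h]
    | algebraMap y => rw [σ.commutes, τ.commutes]
    | add y z _ _ hy hz => rw [map_add, map_add, hy, hz]
    | inv y _ hy => rw [map_inv₀, map_inv₀, hy]
    | mul y z _ _ hy hz => rw [map_mul, map_mul, hy, hz]
  ext x
  exact h1 x (by rw [hθ]; exact IntermediateField.mem_top)

lemma pretrans {θ : K} (hθ : IntermediateField.adjoin ℚ {θ} = ⊤) :
    MulAction.IsPretransitive Gal(M/ℚ) (K →ₐ[ℚ] M) := by
  refine ⟨fun σ τ => ?_⟩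
  have h1 : minpoly ℚ (σ θ) = minpoly ℚ (τ θ) := by
    rw [minpoly.algHom_eq σ (σ : K →+* M).injective, minpoly.algHom_eq τ (τ : K →+* M).injective]
  have h2 : IsConjRoot ℚ (τ θ) (σ θ) := h1.symm
  obtain ⟨g, hg⟩ := isConjRoot_iff_exists_algEquiv.mp h2
  exact ⟨g, ext_gen hθ _ _ hg⟩

lemma preprim {θ : K} (hθ : IntermediateField.adjoin ℚ {θ} = ⊤) (hprim : ∀ F : IntermediateField ℚ K,
    F = ⊥ ∨ F = ⊤) [Nontrivial (K →ₐ[ℚ] M)] :
    MulAction.IsPreprimitive Gal(M/ℚ) (K →ₐ[ℚ] M) := by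
  haveI := pretrans (M := M) hθ
  obtain ⟨σ, τ, hne⟩ := exists_pair_ne (K →ₐ[ℚ] M)
  rw [← MulAction.isCoatom_stabilizer_iff_preprimitive _ σ]
  have hst : MulAction.stabilizer Gal(M/ℚ) σ = σ.fieldRange.fixingSubgroup := by
    ext g
    rw [MulAction.mem_stabilizer_iff, IntermediateField.mem_fixingSubgroup_iff]
    constructor
    · rintro h x ⟨y, rfl⟩
      exact DFunLike.congr_fun h y
    · intro h
      ext y
      exact h _ ⟨y, rfl⟩
  refine ⟨?_, fun H hH => ?_⟩
  · intro h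
    obtain ⟨g, hg⟩ := MulAction.exists_smul_eq Gal(M/ℚ) σ τ
    have : g ∈ MulAction.stabilizer Gal(M/ℚ) σ := by rw [h]; exact Subgroup.mem_top g
    exact hne (this.symm.trans hg)
  · set F := IntermediateField.fixedField H with hF
    have hHF : F.fixingSubgroup = H := IntermediateField.fixingSubgroup_fixedField H
    have hFR : F ≤ σ.fieldRange := by
      rw [← IsGalois.fixedField_fixingSubgroup σ.fieldRange, ← hst]
      exact IntermediateField.fixedField_antitone hH.le
    rcases hprim (F.comap σ) with h | h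
    · have : F = ⊥ := by
        rw [eq_bot_iff]
        intro x hx
        obtain ⟨y, rfl⟩ := hFR hx
        have hy : y ∈ F.comap σ := hx
        rw [h, IntermediateField.mem_bot] at hy
        obtain ⟨q, rfl⟩ := hy
        rw [IntermediateField.mem_bot]
        exact ⟨q, (σ.commutes q).symm⟩
      rw [← hHF, this, IntermediateField.fixingSubgroup_bot]
    · exfalso
      apply hH.not_ge
      rw [hst, ← hHF]
      apply IntermediateField.fixingSubgroup_antitone
      rintro x ⟨y, rfl⟩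
      have : y ∈ F.comap σ := by rw [h]; exact IntermediateField.mem_top
      exact this

lemma moved {θ : K} (hθ : IntermediateField.adjoin ℚ {θ} = ⊤)
    (hcard : Fintype.card (K →ₐ[ℚ] M) = Module.finrank ℚ K)
    (hn : 2 ≤ Module.finrank ℚ K) (P : Ideal (𝓞 M)) (hP : P ≠ ⊤) (p : ℕ) (hp : p.Prime)
    (hpP : (p : 𝓞 M) ∈ P) (h1 : (discr K).natAbs.factorization p = 1) (g : Gal(M/ℚ))
    (hg : ∀ x : 𝓞 M, ∃ y ∈ P, g (x : M) - (x : M) = (y : M)) (σ τ : K →ₐ[ℚ] M)
    (hσ : g • σ ≠ σ) (hτ : g • τ ≠ τ) : τ = σ ∨ τ = g • σ := by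
  have hred : ∀ ρ : K →ₐ[ℚ] M, ∀ x : 𝓞 K, red (g • ρ) x - red ρ x ∈ P := by
    intro ρ x
    obtain ⟨y, hy, e⟩ := hg (red ρ x)
    have : red (g • ρ) x - red ρ x = y := by
      apply RingOfIntegers.coe_injective
      rw [map_sub]
      exact e
    rw [this]
    exact hy
  by_contra hcon
  push Not at hcon
  obtain ⟨hc1, hc2⟩ := hcon
  have h2 : 2 ≤ (discr K).natAbs.factorization p := by
    apply key hcard hn P hP p hp hpP
    intro r
    by_cases ha : r = σ
    · by_cases hb : r = g • τ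
      · refine ⟨τ, g • σ, hc2, fun h => hτ ?_, fun h => hσ ?_, fun x => ?_⟩
        · rw [← hb, h]
        · rw [h, ha]
        · have e1 := hred τ x
          have e2 := hred σ x
          rw [← hb, ha] at e1
          have : red τ x - red (g • σ) x =
              -((red (g • σ) x - red σ x) + (red σ x - red τ x)) := by ring
          rw [this]
          exact P.neg_mem (P.add_mem e2 e1)
      · exact ⟨g • τ, τ, hτ, fun h => hb h.symm, fun h => hc1 (h.trans ha), hred τ⟩
    · by_cases hb : r = g • σ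
      · refine ⟨g • τ, τ, hτ, fun h => ?_, fun h => hc2 (h.trans hb), hred τ⟩
        rw [hb] at h
        exact hc1 (smul_left_cancel g h)
      · exact ⟨g • σ, σ, hσ, fun h => hb h.symm, fun h => ha h.symm, hred σ⟩
  omega

lemma isSwap {θ : K} (hθ : IntermediateField.adjoin ℚ {θ} = ⊤)
    (hcard : Fintype.card (K →ₐ[ℚ] M) = Module.finrank ℚ K)
    (hn : 2 ≤ Module.finrank ℚ K) (P : Ideal (𝓞 M)) (hP : P ≠ ⊤) (p : ℕ) (hp : p.Prime)
    (hpP : (p : 𝓞 M) ∈ P) (h1 : (discr K).natAbs.factorization p = 1) (g : Gal(M/ℚ))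
    (hg : ∀ x : 𝓞 M, ∃ y ∈ P, g (x : M) - (x : M) = (y : M)) (σ : K →ₐ[ℚ] M)
    (hσ : g • σ ≠ σ) [DecidableEq (K →ₐ[ℚ] M)] :
    (MulAction.toPermHom Gal(M/ℚ) (K →ₐ[ℚ] M) g).IsSwap := by
  have hm := fun τ hτ => moved hθ hcard hn P hP p hp hpP h1 g hg σ τ hσ hτ
  have h2 : g • (g • σ) = σ := by
    by_contra hne
    have h3 : g • (g • σ) ≠ g • σ := fun h => hσ (smul_left_cancel g h)
    have h4 : g • (g • (g • σ)) ≠ g • (g • σ) := fun h => h3 (smul_left_cancel g h)
    rcases hm _ h4 with h | h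
    · exact hne h
    · exact h3 h
  refine ⟨σ, g • σ, fun h => hσ h.symm, ?_⟩
  ext1 τ
  rw [MulAction.toPermHom_apply, MulAction.toPerm_apply]
  by_cases ha : τ = σ
  · rw [ha, Equiv.swap_apply_left]
  · by_cases hb : τ = g • σ
    · rw [hb, Equiv.swap_apply_right, h2]
    · rw [Equiv.swap_apply_of_ne_of_ne ha hb]
      by_contra hne
      rcases hm τ hne with h | h
      · exact ha h
      · exact hb h

lemma range_eq_top {θ : K} (hθ : IntermediateField.adjoin ℚ {θ} = ⊤)
    (hcard : Fintype.card (K →ₐ[ℚ] M) = Module.finrank ℚ K)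
    (hfaith : ∀ g : Gal(M/ℚ), (∀ σ : K →ₐ[ℚ] M, g • σ = σ) → g = 1)
    (hprim : ∀ F : IntermediateField ℚ K, F = ⊥ ∨ F = ⊤)
    (hn : 2 ≤ Module.finrank ℚ K) (p : ℕ) (hp : p.Prime)
    (h1 : (discr K).natAbs.factorization p = 1) (φ : K →ₐ[ℚ] M) :
    Function.Bijective (MulAction.toPermHom Gal(M/ℚ) (K →ₐ[ℚ] M)) := by
  classical
  letI : Algebra K M := (φ : K →+* M).toAlgebra
  have hd : (p : ℤ) ∣ discr K := by
    exact Int.dvd_natAbs.mp
      (Int.natCast_dvd_natCast.mpr (Nat.dvd_of_factorization_pos (by omega)))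
  obtain ⟨P, hP, hpP, g, hg1, hg⟩ := exists_inertia (M := M) p hp (hd.trans (discr_dvd_discr K M))
  obtain ⟨σ, hσ⟩ : ∃ σ : K →ₐ[ℚ] M, g • σ ≠ σ := by
    by_contra hcon
    push Not at hcon
    exact hg1 (hfaith g hcon)
  have hsw := isSwap hθ hcard hn P hP.ne_top p hp hpP h1 g hg σ hσ
  haveI : Nontrivial (K →ₐ[ℚ] M) := ⟨_, _, hσ⟩
  haveI := preprim (M := M) hθ hprim
  have hpp : MulAction.IsPreprimitive (MulAction.toPermHom Gal(M/ℚ) (K →ₐ[ℚ] M)).range
      (K →ₐ[ℚ] M) := by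
    let F : (K →ₐ[ℚ] M) →ₑ[(MulAction.toPermHom Gal(M/ℚ) (K →ₐ[ℚ] M)).rangeRestrict]
      (K →ₐ[ℚ] M) := ⟨id, fun g x => rfl⟩
    exact MulAction.IsPreprimitive.of_surjective (f := F) Function.surjective_id
  have htop := Equiv.Perm.subgroup_eq_top_of_isPreprimitive_of_isSwap_mem hpp _ hsw ⟨g, rfl⟩
  constructor
  · rw [injective_iff_map_eq_one]
    intro g hg
    apply hfaith
    intro σ
    exact DFunLike.congr_fun hg σ
  · exact MonoidHom.range_eq_top.mp htop

end prim

lemma coeff_toPoly {n : ℕ} (a : Fin (n + 1) → ℤ) : (toPoly a).coeff n = a (Fin.last n) := by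
  rw [toPoly, finsetSum_coeff, Finset.sum_eq_single (Fin.last n)]
  · simp
  · intro i _ hi
    rw [coeff_C_mul_X_pow, if_neg]
    intro h
    apply hi
    ext
    simp [← h]
  · simp

lemma natDegree_ratPoly {n : ℕ} (a : Fin (n + 1) → ℤ) (hlast : a (Fin.last n) ≠ 0) :
    (ratPoly a).natDegree = n := by
  apply natDegree_eq_of_le_of_coeff_ne_zero
  · apply natDegree_map_le.trans
    apply natDegree_sum_le_of_forall_le
    intro i _
    exact (natDegree_C_mul_X_pow_le _ _).trans (by omega)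
  · rw [ratPoly, coeff_map, coeff_toPoly]
    simpa using hlast

attribute [local instance] act in
theorem main {n : ℕ} (hn : 2 ≤ n) (f : ℚ[X]) (hdeg : f.natDegree = n) (hirr : Irreducible f)
    (K : Type) [Field K] [NumberField K]
    (hK : Module.finrank ℚ K = n) (θ : K) (hθ : aeval θ f = 0) (hprim : IsPrim K)
    (p : ℕ) (hp : p.Prime) (h1 : vD K p = 1)
    (M : Type) [Field M] [NumberField M] [hs : IsSplittingField ℚ M f] :
    Nonempty (Gal(M/ℚ) ≃* Equiv.Perm (Fin n)) := by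
  classical
  have hf0 : f ≠ 0 := hirr.ne_zero
  have hmin : ∀ {L : Type} [Field L] [Algebra ℚ L] (r : L), aeval r f = 0 →
      minpoly ℚ r = f * C f.leadingCoeff⁻¹ := fun r hr => (minpoly.eq_of_irreducible hirr hr).symm
  have hgen : IntermediateField.adjoin ℚ {θ} = ⊤ := by
    rw [Field.primitive_element_iff_minpoly_natDegree_eq, hmin θ hθ,
      natDegree_mul_C (inv_ne_zero (leadingCoeff_ne_zero.mpr hf0)), hdeg, hK]
  have : Normal ℚ M := Normal.of_isSplittingField f
  have : IsGalois ℚ M := ⟨⟩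
  obtain ⟨φ⟩ : Nonempty (K →ₐ[ℚ] M) := by
    apply IntermediateField.nonempty_algHom_of_adjoin_splits (S := {θ}) _ hgen
    intro s hs
    rw [Set.mem_singleton_iff] at hs
    subst hs
    refine ⟨Algebra.IsIntegral.isIntegral s, ?_⟩
    rw [hmin s hθ, Polynomial.map_mul, map_C]
    exact (IsSplittingField.splits M f).mul (Splits.C _)
  have hcard : Fintype.card (K →ₐ[ℚ] M) = Module.finrank ℚ K := by
    apply AlgHom.card_of_splits
    intro x
    have := Normal.splits (F := ℚ) (K := M) inferInstance (φ x)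
    rwa [minpoly.algHom_eq φ (φ : K →+* M).injective] at this
  have hfaith : ∀ g : Gal(M/ℚ), (∀ σ : K →ₐ[ℚ] M, g • σ = σ) → g = 1 := by
    intro g hg
    have h4 : ∀ r ∈ f.rootSet M, g r = r := by
      intro r hr
      have hr0 : aeval r f = 0 := (mem_rootSet.mp hr).2
      have h2 : IsConjRoot ℚ r (φ θ) := by
        change minpoly ℚ r = minpoly ℚ (φ θ)
        rw [hmin r hr0, hmin (φ θ) (by rw [aeval_algHom_apply, hθ, map_zero])]
      obtain ⟨h, hh⟩ := isConjRoot_iff_exists_algEquiv.mp h2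
      have h3 := DFunLike.congr_fun (hg (h • φ)) θ
      change g (h (φ θ)) = h (φ θ) at h3
      rwa [hh] at h3
    have h5 : (g : M →ₐ[ℚ] M) = AlgHom.id ℚ M := by
      have h6 : Algebra.adjoin ℚ (f.rootSet M) ≤ AlgHom.equalizer (g : M →ₐ[ℚ] M) (AlgHom.id ℚ M) :=
        Algebra.adjoin_le_iff.mpr h4
      rw [IsSplittingField.adjoin_rootSet M f] at h6
      ext x
      exact h6 (Algebra.mem_top)
    ext x
    exact DFunLike.congr_fun h5 x
  have hbij := range_eq_top hgen hcard hfaith hprim (by omega) p hp h1 φ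
  have e : (K →ₐ[ℚ] M) ≃ Fin n := Fintype.equivFinOfCardEq (hcard.trans hK)
  exact ⟨(MulEquiv.ofBijective _ hbij).trans e.permCongrHom⟩

end A5

theorem gal_of_vD_eq_one {n : ℕ} (hn : 2 ≤ n) (a : Fin (n + 1) → ℤ) (hlast : a (Fin.last n) ≠ 0)
    (hirr : Irreducible (ratPoly a)) (K : Type) [Field K] [NumberField K]
    (hK : Module.finrank ℚ K = n) (θ : K) (hθ : aeval θ (ratPoly a) = 0) (hprim : IsPrim K)
    (p : ℕ) (hp : p.Prime) (h1 : vD K p = 1) :
    Nonempty ((ratPoly a).Gal ≃* Equiv.Perm (Fin n)) := by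
  have : NumberField (ratPoly a).SplittingField :=
    { to_charZero := inferInstance, to_finiteDimensional := inferInstance }
  exact @A5.main n hn (ratPoly a) (A5.natDegree_ratPoly a hlast) hirr K _ _ hK θ hθ hprim p hp h1
    (ratPoly a).SplittingField _ _ (IsSplittingField.splittingField (ratPoly a))

end Pool.Agent.Helper12.VW
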